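import Pool.Agent.R695.TR.Stm

namespace Pool.Agent.R695.TR

open Finset
open scoped Classical

namespace LocAux

/-- Cut principle. -/
theorem cut {V : Type} (L : SimpleGraph V) (a b : V) (hab : L.Adj a b)
    (h : ¬ L.IsBridge s(a, b)) (U : Set V) (ha : a ∈ U) (hb : b ∉ U) :
    ∃ z w, L.Adj z w ∧ z ∈ U ∧ w ∉ U ∧ s(z, w) ≠ s(a, b) := by
  rw [SimpleGraph.isBridge_iff] at h
  push_neg at h
  have hr := h
  obtain ⟨p⟩ := hr
  by_contra hcon
  push_neg at hcon
  have key : ∀ (x y : V) (q : (L.deleteEdges {s(a, b)}).Walk x y), x ∈ U → y ∈ U := by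
    intro x y q
    induction q with
    | nil => exact fun h => h
    | cons hadj q ih =>
      intro hx
      apply ih
      by_contra hy
      rw [SimpleGraph.deleteEdges_adj] at hadj
      exact hadj.2 (by simpa using hcon _ _ hadj.1 hx hy)
  exact hb (key a b p ha)

end LocAux

open LocAux in
theorem LOC_ok : S_LOC := by
  intro V _ L v p q y N D hvp hvq hvy hpq hpy hqy hnb hvN hyN hcut hpD hqD hpw hqw
  have hyv : L.Adj y v := hvy.symm
  have sw : s(y, v) = s(v, y) := Sym2.eq_swap
  have step1 : ¬ L.IsBridge s(v, y) →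
      ∃ z w, L.Adj z w ∧ z ∈ N ∧ w ∉ N ∧ ¬ (z = y ∧ w = v) := by
    intro h
    obtain ⟨z, w, h1, h2, h3, h4⟩ := cut L y v hyv (by rw [sw]; exact h) N hyN hvN
    refine ⟨z, w, h1, h2, h3, ?_⟩
    rintro ⟨rfl, rfl⟩
    exact h4 rfl
  refine ⟨?_, ?_⟩
  · intro h
    obtain ⟨z, w, h1, h2, h3, h4⟩ := step1 h
    exact ⟨z, h2, hcut z w h1 h2 h3 h4⟩
  · intro hby hbp hbq
    by_cases hpN : p ∈ N
    · by_cases hqN : q ∈ N
      · exact Or.inr ⟨hpN, hpD hpN, hqN, hqD hqN⟩
      · left
        obtain ⟨z, w, h1, h2, h3, h4⟩ := cut L v q hvq hbq (N ∪ {v}) (Or.inr rfl) (by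
          rintro (h | h)
          · exact hqN h
          · exact (L.ne_of_adj hvq) h.symm)
        have hwN : w ∉ N := fun h => h3 (Or.inl h)
        have hwv : w ≠ v := fun h => h3 (Or.inr h)
        have hzv : z ≠ v := by
          rintro rfl
          rcases hnb w h1 with rfl | rfl | rfl
          · exact hwN hpN
          · exact h4 rfl
          · exact hwN hyN
        have hzN : z ∈ N := by
          rcases h2 with h | h
          · exact h
          · exact absurd h hzv
        refine ⟨z, hzN, hcut z w h1 hzN hwN (fun h => hwv h.2), ?_, ?_⟩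
        · rintro rfl
          exact hwN (hpw w h1 hpN hwv)
        · rintro rfl
          exact hqN hzN
    · by_cases hqN : q ∈ N
      · left
        obtain ⟨z, w, h1, h2, h3, h4⟩ := cut L v p hvp hbp (N ∪ {v}) (Or.inr rfl) (by
          rintro (h | h)
          · exact hpN h
          · exact (L.ne_of_adj hvp) h.symm)
        have hwN : w ∉ N := fun h => h3 (Or.inl h)
        have hwv : w ≠ v := fun h => h3 (Or.inr h)
        have hzv : z ≠ v := by
          rintro rfl
          rcases hnb w h1 with rfl | rfl | rfl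
          · exact h4 rfl
          · exact hwN hqN
          · exact hwN hyN
        have hzN : z ∈ N := by
          rcases h2 with h | h
          · exact h
          · exact absurd h hzv
        refine ⟨z, hzN, hcut z w h1 hzN hwN (fun h => hwv h.2), ?_, ?_⟩
        · rintro rfl
          exact hpN hzN
        · rintro rfl
          exact hwN (hqw w h1 hqN hwv)
      · left
        obtain ⟨z, w, h1, h2, h3, h4⟩ := step1 hby
        refine ⟨z, h2, hcut z w h1 h2 h3 h4, ?_, ?_⟩
        · rintro rfl; exact hpN h2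
        · rintro rfl; exact hqN h2

end Pool.Agent.R695.TR
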